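import Pool.Agent.V11197.TwistedSums

set_option autoImplicit false

/-!
For every `c > 0` there is `μ`, depending only on `c`, such that for every finite field `F_q`, every
`n ≥ 1` and all `X_1, …, X_μ ⊆ M_n(F_q)` of size at least `q^{c n²}`, suitable twists
`a_i X_i b_i` by invertible matrices add up to all of `M_n(F_q)`.
-/

open Finset Matrix

namespace Pool.Agent.Results.MP_725651_al.TwistedCover

/-- The sumset `a_1 X_1 b_1 + … + a_μ X_μ b_μ`. -/
def twistedSum {F : Type*} [Field F] {n μ : ℕ} (X : Fin μ → Set (Matrix (Fin n) (Fin n) F))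
    (a b : Fin μ → GL (Fin n) F) : Set (Matrix (Fin n) (Fin n) F) :=
  {m | ∃ x : Fin μ → Matrix (Fin n) (Fin n) F, (∀ i, x i ∈ X i) ∧
    m = ∑ i, (a i : Matrix (Fin n) (Fin n) F) * x i * (b i : Matrix (Fin n) (Fin n) F)}

/-- **Main result.** For every real `c > 0` there is `μ` such that for every finite field `F`,
every `n ≥ 1` and all sets `X_1, …, X_μ` of `n × n` matrices over `F` with
`|X_i| ≥ |F|^{c n²}`, there are invertible `a_i`, `b_i` with
`a_1 X_1 b_1 + … + a_μ X_μ b_μ = M_n(F)`. -/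
theorem result (c : ℝ) (hc : 0 < c) :
    ∃ μ : ℕ, ∀ (F : Type*) [Field F] [Finite F] (n : ℕ), 1 ≤ n →
      ∀ X : Fin μ → Set (Matrix (Fin n) (Fin n) F),
        (∀ i, (Nat.card F : ℝ) ^ (c * (n : ℝ) ^ 2) ≤ (X i).ncard) →
          ∃ a b : Fin μ → GL (Fin n) F, twistedSum X a b = Set.univ := by
  classical
  set N : ℕ := ⌈(6 : ℝ) ^ (16 / c)⌉₊ with hN
  obtain ⟨μ, hμ1, hμ2⟩ : ∃ μ : ℕ, 64 / c ≤ (μ : ℝ) ∧ N ^ N ≤ μ :=
    ⟨max ⌈64 / c⌉₊ (N ^ N), (Nat.le_ceil _).trans (by exact_mod_cast le_max_left _ _),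
      le_max_right _ _⟩
  refine ⟨μ, ?_⟩
  intro F _ _ n hn X hX
  have hFin : Fintype F := Fintype.ofFinite F
  let Y : Fin μ → Finset (Matrix (Fin n) (Fin n) F) := fun i => (Set.toFinite (X i)).toFinset
  have hY : ∀ i m, m ∈ Y i ↔ m ∈ X i := fun i m => Set.Finite.mem_toFinset _
  have hYcard : ∀ i, (Fintype.card F : ℝ) ^ (c * (n : ℝ) ^ 2) ≤ (Y i).card := by
    intro i
    have h1 := hX i
    rw [Nat.card_eq_fintype_card, Set.ncard_eq_toFinset_card (X i) (Set.toFinite (X i))] at h1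
    exact h1
  have hq : 2 ≤ Fintype.card F := Fintype.one_lt_card
  have hQ : (2 : ℝ) ≤ (Fintype.card F : ℝ) := by exact_mod_cast hq
  have hQ0 : (0 : ℝ) < (Fintype.card F : ℝ) := by linarith
  by_cases hbig : N ≤ Fintype.card F ^ n
  · -- the large case
    have hδ : 6 * (Fintype.card F : ℝ) ^ (-(c * n) / 16) ≤ 1 := by
      have h1 : (6 : ℝ) ^ (16 / c) ≤ (Fintype.card F : ℝ) ^ n := by
        calc (6 : ℝ) ^ (16 / c) ≤ N := Nat.le_ceil _
          _ ≤ (Fintype.card F : ℝ) ^ n := by exact_mod_cast hbig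
      have h2 : (6 : ℝ) ≤ (Fintype.card F : ℝ) ^ ((c * n) / 16) := by
        have h3 : ((6 : ℝ) ^ (16 / c)) ^ (c / 16) ≤ ((Fintype.card F : ℝ) ^ n) ^ (c / 16) :=
          Real.rpow_le_rpow (by positivity) h1 (by positivity)
        rw [← Real.rpow_mul (by norm_num), ← Real.rpow_natCast, ← Real.rpow_mul hQ0.le] at h3
        have h4 : 16 / c * (c / 16) = 1 := by field_simp
        have h5 : (n : ℝ) * (c / 16) = c * n / 16 := by ring
        rwa [h4, Real.rpow_one, h5] at h3
      have h6 : (Fintype.card F : ℝ) ^ (-(c * n) / 16) =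
          ((Fintype.card F : ℝ) ^ ((c * n) / 16))⁻¹ := by
        rw [← Real.rpow_neg hQ0.le]
        congr 1
        ring
      rw [h6, ← div_eq_mul_inv, div_le_one (by linarith)]
      exact h2
    obtain ⟨g, h, hgh⟩ := Pool.Agent.V11197.TwistedSums.large hn c hc hδ hμ1 Y hYcard
    refine ⟨g, h, Set.eq_univ_of_forall fun m => ?_⟩
    obtain ⟨x, hx, hm⟩ := hgh m
    exact ⟨x, fun i => (hY i _).1 (hx i), hm⟩
  · -- the small case
    push Not at hbig
    have hY2 : ∀ i, 2 ≤ (Y i).card := by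
      intro i
      have h1 : (1 : ℝ) < (Fintype.card F : ℝ) ^ (c * (n : ℝ) ^ 2) := by
        apply Real.one_lt_rpow (by linarith)
        have : (1 : ℝ) ≤ n := by exact_mod_cast hn
        positivity
      have h2 : (1 : ℝ) < (Y i).card := lt_of_lt_of_le h1 (hYcard i)
      exact_mod_cast h2
    obtain ⟨g, h, S, -, hcard, hrep⟩ := Pool.Agent.V11197.TwistedSums.small μ Y hY2
    have hS : S = univ := by
      refine hcard.resolve_left fun h1 => ?_
      have h2 : S.card ≤ Fintype.card F ^ (n * n) := by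
        rw [← Pool.Agent.V11197.TwistedSums.card_mat n n, ← card_univ]
        exact card_le_card (subset_univ _)
      have h3 : n < 2 ^ n := Nat.lt_two_pow_self
      have h4 : 2 ^ n ≤ Fintype.card F ^ n := Nat.pow_le_pow_left hq n
      have h5 : Fintype.card F ^ (n * n) ≤ N ^ N := by
        rw [pow_mul]
        calc (Fintype.card F ^ n) ^ n ≤ N ^ n := Nat.pow_le_pow_left hbig.le n
          _ ≤ N ^ N := Nat.pow_le_pow_right (by omega) (by omega)
      omega
    refine ⟨g, h, Set.eq_univ_of_forall fun m => ?_⟩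
    obtain ⟨x, hx, hm⟩ := hrep m (by rw [hS]; exact mem_univ m)
    exact ⟨x, fun i => (hY i _).1 (hx i), hm⟩

end Pool.Agent.Results.MP_725651_al.TwistedCover
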